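import Mathlib
import Pool.Agent.TH434.NW.Seq

set_option autoImplicit false

/-!
# Effective line bundles with nearly equal multiplicities at every number `n ≥ 10` of general points

There are two sequences `α n`, `β n` tending to zero, with `α n + β n < 2` for all `n ≥ 10`, such
that for every `n ≥ 10`, every `m ≥ 1`, all multiplicities `w i ∈ {m, m + 1}` and `n` general points
of the complex projective plane: in every degree `d` outside the window
`√n + 2 (∑ w i) / √n - α n ≤ 2 d + 3 ≤ √n + 2 (∑ w i) / √n + β n` (which contains at most one degree)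
the existence of a nonzero form of degree `d` with these multiplicities implies that the conditions
are independent, i.e. `h¹ = 0`.
-/

namespace Pool.Agent.Results.MP_6ec8e4_ag.EveryNumberOfPoints

/-- The homogeneous ideal of the fat points with support `(P i 0 : P i 1 : 1)` and multiplicity
`w i`: the intersection of the `w i`-th powers of the ideals of the points. -/
noncomputable def fat {n : ℕ} (P : Fin n → Fin 2 → ℂ) (w : Fin n → ℕ) :
    Ideal (MvPolynomial (Fin 3) ℂ) :=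
  ⨅ i : Fin n,
    (Ideal.span
      ({MvPolynomial.X 0 - MvPolynomial.C (P i 0) * MvPolynomial.X 2,
        MvPolynomial.X 1 - MvPolynomial.C (P i 1) * MvPolynomial.X 2} :
        Set (MvPolynomial (Fin 3) ℂ))) ^ (w i)

theorem result : ∃ α β : ℕ → ℝ,
    Filter.Tendsto α Filter.atTop (nhds 0) ∧ Filter.Tendsto β Filter.atTop (nhds 0) ∧
    (∀ n : ℕ, 10 ≤ n → α n ≤ min (√(n : ℝ) - 3) (2 / 3 + 9 / (4 * √(n : ℝ))) ∧
      β n ≤ min (√(n : ℝ) - 3) (2 / 3 + 1 / (4 * √(n : ℝ))) ∧ α n + β n < 2) ∧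
    ∀ n : ℕ, 10 ≤ n → ∀ m : ℕ, 1 ≤ m → ∀ w : Fin n → ℕ, (∀ i, w i = m ∨ w i = m + 1) →
      ∃ F : MvPolynomial (Fin n × Fin 2) ℂ, F ≠ 0 ∧ ∀ P : Fin n → Fin 2 → ℂ,
        MvPolynomial.eval (fun ij : Fin n × Fin 2 => P ij.1 ij.2) F ≠ 0 →
        ∀ d : ℕ, (2 * (d : ℝ) + 3 < √(n : ℝ) + 2 * (∑ i, (w i : ℝ)) / √(n : ℝ) - α n ∨
            √(n : ℝ) + 2 * (∑ i, (w i : ℝ)) / √(n : ℝ) + β n < 2 * (d : ℝ) + 3) →
          ∀ G : MvPolynomial (Fin 3) ℂ, G ≠ 0 → G.IsHomogeneous d → G ∈ fat P w →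
            Module.finrank ℂ
              ↥(MvPolynomial.homogeneousSubmodule (Fin 3) ℂ d ⊓
                Submodule.restrictScalars ℂ (fat P w))
              + ∑ i, Nat.choose (w i + 1) 2 = Nat.choose (d + 2) 2 := by
  obtain ⟨α, β, hα, hβ, hb, h⟩ := TH434.NW.exists_window_near ℂ
  refine ⟨α, β, hα, hβ, hb, fun n hn m hm w hw => ?_⟩
  obtain ⟨F, hF, hF'⟩ := h n hn m hm w hw
  refine ⟨F.map (algebraMap ℚ ℂ), Pool.Agent.H932R3.map_ne_zero_of hF,
    fun P hP d hd G hG hGd hGm => ?_⟩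
  rw [MvPolynomial.eval_map] at hP
  have h3 := hF' P hP d hd
  unfold fat at hGm ⊢
  rw [Ideal.mem_iInf] at hGm
  exact h3.eff hG hGd hGm

end Pool.Agent.Results.MP_6ec8e4_ag.EveryNumberOfPoints
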