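import Pool.Agent.TH469.SX.TwentyOneNear

/-!
# The weak Harbourne-Hirschowitz conjecture at 21 points: near-uniform systems, every degree

At 21 general points of the plane, with multiplicities `m` and `m + 1` such that the number of the
points of multiplicity `m + 1` is divisible by 3, every linear system has the expected dimension, in
every degree `d`; one nonempty open set of points serves all degrees.
-/

set_option autoImplicit false

namespace Pool.Agent.Results.MP_6ec8e4_ag.TwentyOneNearUniform

open MvPolynomial

/-- For every `m` and all `w : Fin 21 → {m, m + 1}` with the number of the `i` with `w i = m + 1`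
divisible by 3, there is a nonzero polynomial in the coordinates of 21 points of the affine chart
off whose zeros, for every `d`, the space of the forms of degree `d` in `⋂ I(P_i) ^ (w i)` has
dimension `max 0 ((d + 2) choose 2 - ∑ (w i + 1) choose 2)`. -/
theorem result (m : ℕ) (w : Fin 21 → ℕ) (hw : ∀ i, w i = m ∨ w i = m + 1)
    (h3 : 3 ∣ (Finset.univ.filter fun i => w i = m + 1).card) :
    ∃ F : MvPolynomial (Fin 21 × Fin 2) ℂ, F ≠ 0 ∧ ∀ P : Fin 21 → Fin 2 → ℂ,
      eval (fun ij : Fin 21 × Fin 2 => P ij.1 ij.2) F ≠ 0 → ∀ d : ℕ,
        Module.finrank ℂ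
          ↥(homogeneousSubmodule (Fin 3) ℂ d ⊓
            Submodule.restrictScalars ℂ
              (⨅ i : Fin 21,
                (Ideal.span
                  ({X 0 - C (P i 0) * X 2, X 1 - C (P i 1) * X 2} :
                    Set (MvPolynomial (Fin 3) ℂ))) ^ (w i))) =
          (d + 2).choose 2 - ∑ i, (w i + 1).choose 2 := by
  obtain ⟨F, hF, h⟩ := Pool.Agent.TH469.SX.twentyone_near hw h3
  refine ⟨F.map (algebraMap ℚ ℂ), ?_, fun P hP d => ?_⟩
  · intro h0
    exact hF (MvPolynomial.map_injective (algebraMap ℚ ℂ) (algebraMap ℚ ℂ).injective (by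
      rw [h0, map_zero]))
  · refine h (L := ℂ) P ?_ d
    rw [MvPolynomial.eval_map] at hP
    exact hP

end Pool.Agent.Results.MP_6ec8e4_ag.TwentyOneNearUniform
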